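import Pool.Agent.H77.TL.Stm

/-!
# Crew TL, part CAL : total derivatives of `f`, `fm`, `fy` along curves, continuity up to `|y| = 1`
-/

set_option autoImplicit false

namespace Pool.MP324

namespace CAL

open Filter Topology

lemma log2_ne : Real.log 2 ≠ 0 := by
  have := Real.log_pos (by norm_num : (1:ℝ) < 2)
  exact this.ne'

lemma lp_le_one {y : ℝ} (hy : |y| ≤ 1) : lp y ≤ 1 := by
  obtain ⟨h1, h2⟩ := abs_le.1 hy
  unfold lp
  rcases eq_or_lt_of_le h1 with h | h
  · rw [← h]; norm_num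
  · have h3 : (0:ℝ) < 1 + y := by linarith
    have h4 : Real.logb 2 (1 + y) ≤ Real.logb 2 2 :=
      Real.logb_le_logb_of_le (by norm_num) h3 (by linarith)
    rwa [Real.logb_self_eq_one (by norm_num)] at h4

lemma lp_lt_one {y : ℝ} (hy : |y| < 1) : lp y < 1 := by
  obtain ⟨h1, h2⟩ := abs_lt.1 hy
  unfold lp
  have h3 : (0:ℝ) < 1 + y := by linarith
  have h4 : Real.logb 2 (1 + y) < Real.logb 2 2 :=
    Real.logb_lt_logb (by norm_num) h3 (by linarith)
  rwa [Real.logb_self_eq_one (by norm_num)] at h4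

lemma lm_eq (y : ℝ) : lm y = lp (-y) := by
  unfold lm lp; rw [sub_eq_add_neg]

lemma am_eq (m y : ℝ) : am m y = ap m (-y) := by
  unfold am ap; rw [lm_eq]

lemma hD_lp {Y : ℝ → ℝ} {Y' s : ℝ} (hY : HasDerivAt Y Y' s) (h : |Y s| < 1) :
    HasDerivAt (fun s => lp (Y s)) (cc / (1 + Y s) * Y') s := by
  have h1 : (1:ℝ) + Y s ≠ 0 := by
    have := (abs_lt.1 h).1
    linarith
  have h2 : HasDerivAt (fun s => 1 + Y s) Y' s := hY.const_add 1
  have h3 := (h2.log h1).div_const (Real.log 2)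
  refine HasDerivAt.congr_deriv (f := fun s => lp (Y s)) h3 ?_
  unfold cc
  have := log2_ne
  field_simp

lemma hD_lm {Y : ℝ → ℝ} {Y' s : ℝ} (hY : HasDerivAt Y Y' s) (h : |Y s| < 1) :
    HasDerivAt (fun s => lm (Y s)) (-(cc / (1 - Y s)) * Y') s := by
  have h1 : (1:ℝ) - Y s ≠ 0 := by
    have := (abs_lt.1 h).2
    linarith
  have h2 : HasDerivAt (fun s => 1 - Y s) (-Y') s := hY.const_sub 1
  have h3 := (h2.log h1).div_const (Real.log 2)
  refine HasDerivAt.congr_deriv (f := fun s => lm (Y s)) h3 ?_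
  unfold cc
  have := log2_ne
  field_simp

lemma dp_pos {m y : ℝ} (hm : 0 ≤ m) (h : |y| < 1) : 0 < m + 1 - lp y := by
  have := lp_lt_one h
  linarith

lemma dm_pos {m y : ℝ} (hm : 0 ≤ m) (h : |y| < 1) : 0 < m + 1 - lm y := by
  have := lp_lt_one (y := -y) (by rwa [abs_neg])
  rw [← lm_eq] at this
  linarith

lemma hD_ap {M Y : ℝ → ℝ} {M' Y' s : ℝ} (hM : HasDerivAt M M' s) (hY : HasDerivAt Y Y' s)
    (hm : 0 ≤ M s) (h : |Y s| < 1) :
    HasDerivAt (fun s => ap (M s) (Y s))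
      (-(M' - cc / (1 + Y s) * Y') * ap (M s) (Y s) ^ 2) s := by
  have h1 := (dp_pos hm h).ne'
  have h2 : HasDerivAt (fun s => M s + 1 - lp (Y s)) (M' - cc / (1 + Y s) * Y') s :=
    (hM.add_const 1).sub (hD_lp hY h)
  have h3 := (hasDerivAt_const s (1:ℝ)).div h2 h1
  refine HasDerivAt.congr_deriv (f := fun s => ap (M s) (Y s)) h3 ?_
  unfold ap
  field_simp
  ring

lemma hD_am {M Y : ℝ → ℝ} {M' Y' s : ℝ} (hM : HasDerivAt M M' s) (hY : HasDerivAt Y Y' s)
    (hm : 0 ≤ M s) (h : |Y s| < 1) :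
    HasDerivAt (fun s => am (M s) (Y s))
      (-(M' + cc / (1 - Y s) * Y') * am (M s) (Y s) ^ 2) s := by
  have h1 := (dm_pos hm h).ne'
  have h2 : HasDerivAt (fun s => M s + 1 - lm (Y s)) (M' - (-(cc / (1 - Y s)) * Y')) s :=
    (hM.add_const 1).sub (hD_lm hY h)
  have h3 := (hasDerivAt_const s (1:ℝ)).div h2 h1
  refine HasDerivAt.congr_deriv (f := fun s => am (M s) (Y s)) h3 ?_
  unfold am
  field_simp
  ring

/-- relations at a point -/
lemma ap_rel {m y : ℝ} (hm : 0 ≤ m) (h : |y| < 1) : ap m y * (m + 1 - lp y) = 1 := by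
  unfold ap
  have := (dp_pos hm h).ne'
  field_simp

lemma am_rel {m y : ℝ} (hm : 0 ≤ m) (h : |y| < 1) : am m y * (m + 1 - lm y) = 1 := by
  unfold am
  have := (dm_pos hm h).ne'
  field_simp

lemma hD_J {M Y : ℝ → ℝ} {M' Y' s : ℝ} (hM : HasDerivAt M M' s) (hY : HasDerivAt Y Y' s)
    (hm : 0 ≤ M s) (h : |Y s| < 1) :
    HasDerivAt (fun s => J (M s) (Y s)) (Jm (M s) (Y s) * M' + Jy (M s) (Y s) * Y') s := by
  have h1 : HasDerivAt (fun s => (1 + Y s) / 2) (Y' / 2) s := (hY.const_add 1).div_const 2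
  have h2 : HasDerivAt (fun s => (1 - Y s) / 2) (-Y' / 2) s := (hY.const_sub 1).div_const 2
  have h3 := hM.mul (((h1.mul (hD_lp hY h)).mul (hD_ap hM hY hm h)).add
    ((h2.mul (hD_lm hY h)).mul (hD_am hM hY hm h)))
  refine HasDerivAt.congr_deriv (f := fun s => J (M s) (Y s)) h3 ?_
  have ra := ap_rel hm h
  have rb := am_rel hm h
  have hy1 : (1:ℝ) + Y s ≠ 0 := by
    have := (abs_lt.1 h).1
    linarith
  have hy2 : (1:ℝ) - Y s ≠ 0 := by
    have := (abs_lt.1 h).2
    linarith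
  have hu : (1 + Y s) * (cc / (1 + Y s)) = cc := by field_simp
  have hv : (1 - Y s) * (cc / (1 - Y s)) = cc := by field_simp
  simp only [Pi.mul_apply, Pi.add_apply, Jm, Jy, gg]
  generalize cc / (1 + Y s) = u at *
  generalize cc / (1 - Y s) = v at *
  generalize ap (M s) (Y s) = a at *
  generalize am (M s) (Y s) = b at *
  generalize lp (Y s) = l at *
  generalize lm (Y s) = k at *
  generalize M s = m at *
  generalize Y s = y at *
  generalize cc = c at *
  linear_combination (-(1 + y) / 2 * l * a * M' - m / 2 * Y' * c * a) * ra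
    + (-(1 - y) / 2 * k * b * M' + m / 2 * Y' * c * b) * rb
    + m / 2 * Y' * (a + l * a ^ 2) * hu - m / 2 * Y' * (b + k * b ^ 2) * hv

lemma hD_Jm {M Y : ℝ → ℝ} {M' Y' s : ℝ} (hM : HasDerivAt M M' s) (hY : HasDerivAt Y Y' s)
    (hm : 0 ≤ M s) (h : |Y s| < 1) :
    HasDerivAt (fun s => Jm (M s) (Y s)) (Jmm (M s) (Y s) * M' + Jmy (M s) (Y s) * Y') s := by
  have h1 : HasDerivAt (fun s => (1 + Y s) / 2) (Y' / 2) s := (hY.const_add 1).div_const 2
  have h2 : HasDerivAt (fun s => (1 - Y s) / 2) (-Y' / 2) s := (hY.const_sub 1).div_const 2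
  have g1 := (hD_lp hY h).mul ((hD_lp hY h).const_sub 1)
  have g2 := (hD_lm hY h).mul ((hD_lm hY h).const_sub 1)
  have h3 := ((h1.mul g1).mul ((hD_ap hM hY hm h).pow 2)).add
    ((h2.mul g2).mul ((hD_am hM hY hm h).pow 2))
  refine HasDerivAt.congr_deriv (f := fun s => Jm (M s) (Y s)) h3 ?_
  have hy1 : (1:ℝ) + Y s ≠ 0 := by
    have := (abs_lt.1 h).1
    linarith
  have hy2 : (1:ℝ) - Y s ≠ 0 := by
    have := (abs_lt.1 h).2
    linarith
  have hu : (1 + Y s) * (cc / (1 + Y s)) = cc := by field_simp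
  have hv : (1 - Y s) * (cc / (1 - Y s)) = cc := by field_simp
  simp only [Pi.mul_apply, Pi.pow_apply, Jmm, Jmy, gg, Nat.cast_ofNat,
    Nat.add_one_sub_one, pow_one]
  generalize cc / (1 + Y s) = u at *
  generalize cc / (1 - Y s) = v at *
  generalize ap (M s) (Y s) = a at *
  generalize am (M s) (Y s) = b at *
  generalize lp (Y s) = l at *
  generalize lm (Y s) = k at *
  generalize M s = m at *
  generalize Y s = y at *
  generalize cc = c at *
  linear_combination Y' * ((1 - 2 * l) * a ^ 2 / 2 + l * (1 - l) * a ^ 3) * hu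
    - Y' * ((1 - 2 * k) * b ^ 2 / 2 + k * (1 - k) * b ^ 3) * hv

lemma hD_Jy {M Y : ℝ → ℝ} {M' Y' s : ℝ} (hM : HasDerivAt M M' s) (hY : HasDerivAt Y Y' s)
    (hm : 0 ≤ M s) (h : |Y s| < 1) :
    HasDerivAt (fun s => Jy (M s) (Y s)) (Jmy (M s) (Y s) * M' + Jyy (M s) (Y s) * Y') s := by
  have g1 := ((hD_lp hY h).mul (hD_ap hM hY hm h)).add
    (((hM.add_const 1).const_mul cc).mul ((hD_ap hM hY hm h).pow 2))
  have g2 := ((hD_lm hY h).mul (hD_am hM hY hm h)).add
    (((hM.add_const 1).const_mul cc).mul ((hD_am hM hY hm h).pow 2))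
  have h3 := (hM.mul (g1.sub g2)).div_const 2
  refine HasDerivAt.congr_deriv (f := fun s => Jy (M s) (Y s)) h3 ?_
  have ra := ap_rel hm h
  have rb := am_rel hm h
  have hy1 : (1:ℝ) + Y s ≠ 0 := by
    have := (abs_lt.1 h).1
    linarith
  have hy2 : (1:ℝ) - Y s ≠ 0 := by
    have := (abs_lt.1 h).2
    linarith
  have hJyy : Jyy (M s) (Y s) = M s * (M s + 1) / 2 *
      (cc / (1 + Y s) * (ap (M s) (Y s) ^ 2 * (1 + 2 * cc * ap (M s) (Y s)))
        + cc / (1 - Y s) * (am (M s) (Y s) ^ 2 * (1 + 2 * cc * am (M s) (Y s)))) := by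
    unfold Jyy
    field_simp
  rw [hJyy]
  simp only [Pi.mul_apply, Pi.add_apply, Pi.sub_apply, Pi.pow_apply, Jmy, gg, Nat.cast_ofNat,
    Nat.add_one_sub_one, pow_one]
  generalize cc / (1 + Y s) = u at *
  generalize cc / (1 - Y s) = v at *
  generalize ap (M s) (Y s) = a at *
  generalize am (M s) (Y s) = b at *
  generalize lp (Y s) = l at *
  generalize lm (Y s) = k at *
  generalize M s = m at *
  generalize Y s = y at *
  generalize cc = c at *
  linear_combination (-M' * (l * a / 2 + c * a ^ 2 * (m + l)) - Y' * m * u / 2 * a) * ra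
    + (M' * (k * b / 2 + c * b ^ 2 * (m + k)) - Y' * m * v / 2 * b) * rb

lemma hD_w {M : ℝ → ℝ} {M' s : ℝ} (hM : HasDerivAt M M' s) (hm : 0 ≤ M s) :
    HasDerivAt (fun s => w (M s)) (w1 (M s) * M') s := by
  have h0 : M s + 7 / 4 ≠ 0 := by linarith
  have h1 := (hasDerivAt_const s ((33:ℝ) / 5)).div ((hM.add_const (7 / 4)).pow 3)
    (by simpa using h0)
  refine HasDerivAt.congr_deriv (f := fun s => w (M s)) h1 ?_
  simp only [w1, w, Pi.pow_apply, Nat.cast_ofNat]
  field_simp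
  ring

lemma hD_w1 {M : ℝ → ℝ} {M' s : ℝ} (hM : HasDerivAt M M' s) (hm : 0 ≤ M s) :
    HasDerivAt (fun s => w1 (M s)) (w2 (M s) * M') s := by
  have h0 : M s + 7 / 4 ≠ 0 := by linarith
  have h1 := (((hD_w hM hm).const_mul (-3))).div (hM.add_const (7 / 4)) h0
  refine HasDerivAt.congr_deriv (f := fun s => w1 (M s)) h1 ?_
  simp only [w2, w1, w]
  field_simp
  ring

lemma hD_q {Y : ℝ → ℝ} {Y' s : ℝ} (hY : HasDerivAt Y Y' s) :
    HasDerivAt (fun s => q (Y s)) (qy (Y s) * Y') s := by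
  have h1 := ((hY.pow 2).const_mul 2).sub (hY.pow 4)
  refine HasDerivAt.congr_deriv (f := fun s => q (Y s)) h1 ?_
  simp only [qy, Nat.cast_ofNat]
  ring

lemma hD_qy {Y : ℝ → ℝ} {Y' s : ℝ} (hY : HasDerivAt Y Y' s) :
    HasDerivAt (fun s => qy (Y s)) (qyy (Y s) * Y') s := by
  have h1 := (hY.const_mul 4).sub ((hY.pow 3).const_mul 4)
  refine HasDerivAt.congr_deriv (f := fun s => qy (Y s)) h1 ?_
  simp only [qyy, Nat.cast_ofNat]
  ring

theorem t_CALf : S_CALf := by
  intro M Y M' Y' s hM hY hm h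
  have h1 := (((hD_w hM hm).const_sub 1).mul (hD_J hM hY hm h)).add
    ((hD_w hM hm).mul (hD_q hY))
  refine HasDerivAt.congr_deriv (f := fun s => f (M s) (Y s)) h1 ?_
  simp only [fm, fy]
  ring

theorem t_CALm : S_CALm := by
  intro M Y M' Y' s hM hY hm h
  have h1 := (((hD_w hM hm).const_sub 1).mul (hD_Jm hM hY hm h)).add
    ((hD_w1 hM hm).mul ((hD_q hY).sub (hD_J hM hY hm h)))
  refine HasDerivAt.congr_deriv (f := fun s => fm (M s) (Y s)) h1 ?_
  simp only [fmm, fmy, Pi.sub_apply]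
  ring

theorem t_CALy : S_CALy := by
  intro M Y M' Y' s hM hY hm h
  have h1 := (((hD_w hM hm).const_sub 1).mul (hD_Jy hM hY hm h)).add
    ((hD_w hM hm).mul (hD_qy hY))
  refine HasDerivAt.congr_deriv (f := fun s => fy (M s) (Y s)) h1 ?_
  simp only [fmy, fyy]
  ring

/-- the one-sided piece, continuous up to `y = -1` -/
lemma piece_cont {M Y : ℝ → ℝ} {S : Set ℝ} (hM : ContinuousOn M S) (hY : ContinuousOn Y S)
    (hM0 : ∀ s ∈ S, 0 < M s) (hY1 : ∀ s ∈ S, |Y s| ≤ 1) :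
    ContinuousOn (fun s => (1 + Y s) / 2 * lp (Y s) * ap (M s) (Y s)) S := by
  intro s hs
  have hYs := hY1 s hs
  rcases eq_or_lt_of_le (abs_le.1 hYs).1 with he | hlt
  · -- `Y s = -1`
    have hval : (1 + Y s) / 2 * lp (Y s) * ap (M s) (Y s) = 0 := by
      rw [← he]; norm_num
    unfold ContinuousWithinAt
    show Tendsto _ _ (𝓝 ((1 + Y s) / 2 * lp (Y s) * ap (M s) (Y s)))
    rw [hval]
    have hlim : Tendsto (fun s => (1 + Y s) / 2) (𝓝[S] s) (𝓝 0) := by
      have h1 : Tendsto (fun s => (1 + Y s) / 2) (𝓝[S] s) (𝓝 ((1 + Y s) / 2)) :=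
        ((hY s hs).const_add 1).div_const 2
      rw [← he] at h1
      norm_num at h1
      exact h1
    have hneg : ∀ᶠ x in 𝓝[S] s, Y x < 0 := by
      have h1 : Tendsto Y (𝓝[S] s) (𝓝 (Y s)) := hY s hs
      rw [← he] at h1
      exact h1.eventually (gt_mem_nhds (by norm_num))
    refine squeeze_zero_norm' ?_ hlim
    filter_upwards [hneg, self_mem_nhdsWithin] with x hx hxS
    have hx1 := (abs_le.1 (hY1 x hxS)).1
    have hmx := hM0 x hxS
    have hl : lp (Y x) ≤ 0 := by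
      unfold lp
      rcases eq_or_lt_of_le hx1 with h | h
      · rw [← h]; norm_num
      · exact Real.logb_nonpos (by norm_num) (by linarith) (by linarith)
    have hden : 0 < M x + 1 - lp (Y x) := by linarith
    have hb : |lp (Y x) * ap (M x) (Y x)| ≤ 1 := by
      unfold ap
      rw [mul_one_div, abs_div, abs_of_pos hden, abs_of_nonpos hl, div_le_one hden]
      linarith
    have h0 : (0:ℝ) ≤ (1 + Y x) / 2 := by linarith
    rw [Real.norm_eq_abs, mul_assoc, abs_mul, abs_of_nonneg h0]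
    exact mul_le_of_le_one_right h0 hb
  · have h1 : (1:ℝ) + Y s ≠ 0 := by linarith
    have hlp : ContinuousWithinAt (fun s => lp (Y s)) S s :=
      (((hY s hs).const_add 1).log h1).div_const (Real.log 2)
    have hden : M s + 1 - lp (Y s) ≠ 0 := by
      have := lp_le_one hYs
      have := hM0 s hs
      linarith
    have hap : ContinuousWithinAt (fun s => ap (M s) (Y s)) S s := by
      unfold ap
      exact continuousWithinAt_const.div (((hM s hs).add_const 1).sub hlp) hden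
    exact ((((hY s hs).const_add 1).div_const 2).mul hlp).mul hap

theorem t_CALc : S_CALc := by
  intro M Y s₀ s₁ hM hY hM0 hY1
  have p1 := piece_cont hM hY hM0 hY1
  have p2 := piece_cont (Y := fun s => - Y s) hM hY.neg hM0
    (fun s hs => by rw [abs_neg]; exact hY1 s hs)
  have p3 : ContinuousOn (fun s => (1 - Y s) / 2 * lm (Y s) * am (M s) (Y s)) (Set.Icc s₀ s₁) := by
    refine p2.congr fun s _ => ?_
    simp only [lm_eq, am_eq, sub_eq_add_neg]
  have hJ : ContinuousOn (fun s => J (M s) (Y s)) (Set.Icc s₀ s₁) := by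
    unfold J
    exact hM.mul (p1.add p3)
  have hw : ContinuousOn (fun s => w (M s)) (Set.Icc s₀ s₁) := by
    unfold w
    refine continuousOn_const.div ((hM.add_const _).pow 3) fun s hs => ?_
    have := hM0 s hs
    positivity
  have hq : ContinuousOn (fun s => q (Y s)) (Set.Icc s₀ s₁) := by
    unfold q
    exact ((hY.pow 2).const_mul 2).sub (hY.pow 4)
  unfold f
  exact ((continuousOn_const.sub hw).mul hJ).add (hw.mul hq)

theorem t_CAL : S_CALf ∧ S_CALm ∧ S_CALy ∧ S_CALc := ⟨t_CALf, t_CALm, t_CALy, t_CALc⟩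

end CAL

end Pool.MP324
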