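import Pool.Agent.H77.TL.Stm2
import Pool.Agent.H64.TL.Cal

/-!
# Crew TL, part CAL2 : the derivative of `fyy` in `m`
-/

set_option autoImplicit false

namespace Pool.MP324

namespace CAL

lemma hD_apm {m y : ℝ} (hm : 0 ≤ m) (h : |y| < 1) :
    HasDerivAt (fun m => ap m y) (-(ap m y) ^ 2) m := by
  have h1 := hD_ap (hasDerivAt_id m) (hasDerivAt_const m y) hm h
  refine HasDerivAt.congr_deriv (f := fun m => ap m y) h1 ?_
  simp only [id]
  ring

lemma hD_amm {m y : ℝ} (hm : 0 ≤ m) (h : |y| < 1) :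
    HasDerivAt (fun m => am m y) (-(am m y) ^ 2) m := by
  have h1 := hD_am (hasDerivAt_id m) (hasDerivAt_const m y) hm h
  refine HasDerivAt.congr_deriv (f := fun m => am m y) h1 ?_
  simp only [id]
  ring

lemma hD_Jyym {m y : ℝ} (hm : 0 ≤ m) (h : |y| < 1) :
    HasDerivAt (fun m => Jyy m y) (Jyym m y) m := by
  have ha := hD_apm hm h
  have hb := hD_amm hm h
  have g1 := ((ha.pow 2).mul ((ha.const_mul (2 * cc)).const_add 1)).div_const (1 + y)
  have g2 := ((hb.pow 2).mul ((hb.const_mul (2 * cc)).const_add 1)).div_const (1 - y)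
  have h3 := ((((hasDerivAt_id m).mul_const (cc / 2)).mul ((hasDerivAt_id m).add_const 1))).mul
    (g1.add g2)
  refine HasDerivAt.congr_deriv (f := fun m => Jyy m y) h3 ?_
  simp only [Jyym, Pi.mul_apply, Pi.add_apply, Pi.pow_apply, Nat.cast_ofNat,
    Nat.add_one_sub_one, pow_one, id]
  generalize ap m y = a at *
  generalize am m y = b at *
  ring

theorem t_CALyy : S_CALyy := by
  intro m y hm h
  have h1 := (((hD_w (hasDerivAt_id m) hm.le).const_sub 1).mul (hD_Jyym hm.le h)).add
    ((hD_w (hasDerivAt_id m) hm.le).mul_const (qyy y))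
  refine HasDerivAt.congr_deriv (f := fun m => fyy m y) h1 ?_
  simp only [fyym, id]
  ring

end CAL

end Pool.MP324
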