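import Pool.Agent.H77.TL.Stm2

/-!
# Crew TL, part EAVG : bounds of the averages of the clock
-/

set_option autoImplicit false

namespace Pool.MP324

namespace EAV

open MeasureTheory intervalIntegral

lemma contE : Continuous E := by
  unfold E
  exact (continuous_id.add continuous_const).mul
    (Real.continuous_sqrt.comp (continuous_id.add continuous_const))

lemma log2_pos : 0 < Real.log 2 := Real.log_pos (by norm_num)

lemma hD_logb {s : ℝ} (hs : 0 < s) : HasDerivAt (fun s => Real.logb 2 s) (cc / s) s := by
  have h := (Real.hasDerivAt_log hs.ne').div_const (Real.log 2)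
  refine HasDerivAt.congr_deriv (f := fun s => Real.logb 2 s) h ?_
  unfold cc
  have := log2_pos.ne'
  field_simp

lemma uIcc_pos {a b s : ℝ} (ha : 0 < a) (hb : 0 < b) (hs : s ∈ Set.uIcc a b) : 0 < s := by
  have := hs.1
  exact lt_of_lt_of_le (lt_min ha hb) this

lemma cont_logb {a b : ℝ} (ha : 0 < a) (hb : 0 < b) :
    ContinuousOn (fun s => Real.logb 2 s) (Set.uIcc a b) := fun _ hs =>
  (hD_logb (uIcc_pos ha hb hs)).continuousAt.continuousWithinAt

lemma int_E {a b : ℝ} (ha : 0 < a) (hb : 0 < b) :
    IntervalIntegrable (fun s => E (Real.logb 2 s)) volume a b :=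
  (contE.comp_continuousOn (cont_logb ha hb)).intervalIntegrable

lemma int_lin {a b : ℝ} (ha : 0 < a) (hb : 0 < b) :
    IntervalIntegrable (fun s => Real.logb 2 s + 1) volume a b :=
  ((cont_logb ha hb).add continuousOn_const).intervalIntegrable

lemma EE_sub {a b : ℝ} (ha : 0 < a) (hb : 0 < b) :
    EE b - EE a = ∫ s in a..b, E (Real.logb 2 s) := by
  unfold EE
  exact integral_interval_sub_left (int_E one_pos hb) (int_E one_pos ha)

lemma integral_lin {a b : ℝ} (ha : 0 < a) (hb : 0 < b) :
    ∫ s in a..b, (Real.logb 2 s + 1) =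
      b * (Real.logb 2 b + 1 - cc) - a * (Real.logb 2 a + 1 - cc) := by
  refine integral_eq_sub_of_hasDerivAt (f := fun s => s * (Real.logb 2 s + 1 - cc)) ?_
    (int_lin ha hb)
  intro s hs
  have hs0 := uIcc_pos ha hb hs
  have h := (hasDerivAt_id s).mul (((hD_logb hs0).add_const 1).sub_const cc)
  refine HasDerivAt.congr_deriv (f := fun s => s * (Real.logb 2 s + 1 - cc)) h ?_
  simp only [id]
  field_simp
  ring

lemma tt_pos (m : ℝ) : 0 < tt m := by unfold tt; positivity

lemma logb_tt (m : ℝ) : Real.logb 2 (tt m) = m := by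
  unfold tt
  exact Real.logb_rpow (by norm_num) (by norm_num)

lemma logb_tp {m x : ℝ} (hx : 0 < 1 + x) : Real.logb 2 (tp m x) = m - lp x := by
  unfold tp lp
  rw [Real.logb_div (by positivity) hx.ne', Real.logb_rpow (by norm_num) (by norm_num)]

lemma logb_tm {m x : ℝ} (hx : 0 < 1 - x) : Real.logb 2 (tm m x) = m - lm x := by
  unfold tm lm
  rw [Real.logb_div (by positivity) hx.ne', Real.logb_rpow (by norm_num) (by norm_num)]

theorem t_EAVG : S_EAVG := by
  intro m x hm hx hx1 hxm
  have hx2 : 0 < 1 + x := by linarith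
  have hx3 : 0 < 1 - x := by linarith
  have htt := tt_pos m
  have h2m : tt m = (2:ℝ) ^ m := rfl
  have htp : 0 < tp m x := div_pos htt hx2
  have htm : 0 < tm m x := div_pos htt hx3
  have e1 : tt m = tp m x * (1 + x) := by
    unfold tp; rw [h2m]; field_simp
  have e2 : tt m = tm m x * (1 - x) := by
    unfold tm; rw [h2m]; field_simp
  have htp1 : 1 ≤ tp m x := by
    unfold tp
    rw [le_div_iff₀ hx2]
    linarith
  have l1 : tp m x ≤ tt m := by rw [e1]; nlinarith
  have l2 : tt m ≤ tm m x := by rw [e2]; nlinarith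
  constructor
  · rw [EE_sub htp htt]
    have hle : ∫ s in (tp m x)..(tt m), E (Real.logb 2 s) ≤
        ∫ s in (tp m x)..(tt m), Real.sqrt (m + 15) * (Real.logb 2 s + 1) := by
      refine integral_mono_on l1 (int_E htp htt) ((int_lin htp htt).const_mul _) ?_
      intro s hs
      have hs1 : 1 ≤ s := htp1.trans hs.1
      have h1 : 0 ≤ Real.logb 2 s := Real.logb_nonneg (by norm_num) hs1
      have h2 : Real.logb 2 s ≤ m := by
        rw [← logb_tt m]
        exact Real.logb_le_logb_of_le (by norm_num) (by linarith) hs.2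
      unfold E
      rw [mul_comm]
      exact mul_le_mul_of_nonneg_right (Real.sqrt_le_sqrt (by linarith)) (by linarith)
    rw [intervalIntegral.integral_const_mul, integral_lin htp htt, logb_tt, logb_tp hx2] at hle
    have hd : 0 < tt m - tp m x := by rw [e1]; nlinarith
    rw [div_le_iff₀ hd]
    refine hle.trans (le_of_eq ?_)
    rw [e1]
    field_simp
    ring
  · rw [EE_sub htt htm]
    have hle : ∫ s in (tt m)..(tm m x), Real.sqrt (m + 15) * (Real.logb 2 s + 1) ≤
        ∫ s in (tt m)..(tm m x), E (Real.logb 2 s) := by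
      refine integral_mono_on l2 ((int_lin htt htm).const_mul _) (int_E htt htm) ?_
      intro s hs
      have h2 : m ≤ Real.logb 2 s := by
        rw [← logb_tt m]
        exact Real.logb_le_logb_of_le (by norm_num) htt hs.1
      unfold E
      rw [mul_comm (Real.sqrt (m + 15))]
      exact mul_le_mul_of_nonneg_left (Real.sqrt_le_sqrt (by linarith)) (by linarith)
    rw [intervalIntegral.integral_const_mul, integral_lin htt htm, logb_tt, logb_tm hx3] at hle
    have hd : 0 < tm m x - tt m := by rw [e2]; nlinarith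
    rw [le_div_iff₀ hd]
    refine (le_of_eq ?_).trans hle
    rw [e2]
    field_simp
    ring

end EAV

end Pool.MP324
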